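import Mathlib

set_option autoImplicit false

namespace Pool.Agent.MP_284f77_nt

/-- `Π₁(N) = ∏_{j=1}^{N} (4j - 1)²`. -/
def P1 (N : ℕ) : ℤ := ∏ j ∈ Finset.Icc 1 N, (4 * (j : ℤ) - 1) ^ 2

/-- `Π₃(N) = ∏_{j=1}^{N} (4j - 3)²`. -/
def P3 (N : ℕ) : ℤ := ∏ j ∈ Finset.Icc 1 N, (4 * (j : ℤ) - 3) ^ 2

end Pool.Agent.MP_284f77_nt
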