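import Mathlib
import Pool.Agent.MP_284f77_nt.Defs

set_option autoImplicit false

open PowerSeries Nat

namespace Pool.Agent.MP_284f77_nt

/-! ### Rationals with odd denominator -/

/-- The subring of rationals with odd denominator. -/
def R : Subring ℚ where
  carrier := {q | ¬ 2 ∣ q.den}
  mul_mem' := by
    intro a b ha hb h
    rcases (Nat.Prime.dvd_mul Nat.prime_two).1 (h.trans (Rat.mul_den_dvd a b)) with h | h
    · exact ha h
    · exact hb h
  one_mem' := by simp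
  add_mem' := by
    intro a b ha hb h
    rcases (Nat.Prime.dvd_mul Nat.prime_two).1 (h.trans (Rat.add_den_dvd a b)) with h | h
    · exact ha h
    · exact hb h
  zero_mem' := by simp
  neg_mem' := by
    intro a ha
    simpa using ha

lemma mem_R {q : ℚ} : q ∈ R ↔ ¬ 2 ∣ q.den := Iff.rfl

lemma nat_mem (n : ℕ) : (n : ℚ) ∈ R := natCast_mem R n

lemma int_mem (n : ℤ) : (n : ℚ) ∈ R := intCast_mem R n

lemma inv_mem {n : ℕ} (hn : Odd n) : ((n : ℚ))⁻¹ ∈ R := by
  rw [mem_R, Rat.inv_natCast_den_of_pos hn.pos]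
  exact fun h => (Nat.not_even_iff_odd.2 hn) (even_iff_two_dvd.2 h)

/-! ### The recursion forces `2`-adic integrality -/

section integrality

variable {s : ℕ → ℚ}

/-- The three term recursion. -/
def Rec (s : ℕ → ℚ) : Prop := ∀ n : ℕ,
  ((n : ℚ) + 2) * (n + 1) * (2 * n + 3) * s (n + 2) =
    2 * (n + 1) * (8 * n ^ 2 + 16 * n + 9) * s (n + 1) - 4 * (2 * n + 1) ^ 3 * s n

/-- `w n = s (n-1) / n`. -/
noncomputable def w (s : ℕ → ℚ) (n : ℕ) : ℚ := s (n - 1) / n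

lemma step (hs : Rec s) (e : ℕ) : ∀ m : ℕ, 1 ≤ m → ∃ a b c d : ℚ, a ∈ R ∧ b ∈ R ∧ c ∈ R ∧ d ∈ R ∧
    ((m : ℚ) + 1) * s (2 ^ e * (m + 1)) = 2 * a * s (2 ^ e * m) + 4 * b * w s (2 ^ e * m) ∧
    ((m : ℚ) + 1) * w s (2 ^ e * (m + 1)) = c * s (2 ^ e * m) + 2 * d * w s (2 ^ e * m) := by
  induction e with
  | zero =>
    intro m hm
    obtain ⟨k, rfl⟩ : ∃ k, m = k + 1 := ⟨m - 1, by omega⟩
    have hodd : ((2 * k + 3 : ℕ) : ℚ)⁻¹ ∈ R := inv_mem ⟨k + 1, by ring⟩
    refine ⟨(8 * ((k + 1 : ℕ) : ℚ) ^ 2 + 1) * ((2 * k + 3 : ℕ) : ℚ)⁻¹,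
      -(2 * (k : ℚ) + 1) ^ 3 * ((2 * k + 3 : ℕ) : ℚ)⁻¹, 1, 0, ?_, ?_, one_mem _, zero_mem _, ?_, ?_⟩
    · refine mul_mem ?_ hodd
      have : (8 * ((k + 1 : ℕ) : ℚ) ^ 2 + 1) = ((8 * (k + 1) ^ 2 + 1 : ℕ) : ℚ) := by push_cast; ring
      rw [this]; exact nat_mem _
    · refine mul_mem ?_ hodd
      have : (-(2 * (k : ℚ) + 1) ^ 3) = ((-(2 * (k : ℤ) + 1) ^ 3 : ℤ) : ℚ) := by push_cast; ring
      rw [this]; exact int_mem _
    · have h := hs k
      have h3 : (2 * (k : ℚ) + 3) ≠ 0 := by positivity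
      have h1 : ((k : ℚ) + 1) ≠ 0 := by positivity
      simp only [pow_zero, one_mul, w, Nat.add_sub_cancel]
      push_cast
      field_simp
      linear_combination h
    · have h1 : ((k : ℚ) + 1 + 1) ≠ 0 := by positivity
      simp only [pow_zero, one_mul, w, Nat.add_sub_cancel]
      push_cast
      field_simp
      ring
  | succ e ih =>
    intro m hm
    obtain ⟨a, b, c, d, ha, hb, hc, hd, h1, h2⟩ := ih (2 * m) (by omega)
    obtain ⟨a', b', c', d', ha', hb', hc', hd', h1', h2'⟩ := ih (2 * m + 1) (by omega)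
    have hodd : ((2 * m + 1 : ℕ) : ℚ)⁻¹ ∈ R := inv_mem ⟨m, rfl⟩
    have e1 : 2 ^ e * (2 * m) = 2 ^ (e + 1) * m := by ring
    have e2 : 2 ^ e * (2 * m + 1 + 1) = 2 ^ (e + 1) * (m + 1) := by ring
    rw [e1] at h1 h2
    rw [e2] at h1' h2'
    have hne : (2 * (m : ℚ) + 1) ≠ 0 := by positivity
    refine ⟨(a' * a + b' * c) * ((2 * m + 1 : ℕ) : ℚ)⁻¹, (a' * b + b' * d) * ((2 * m + 1 : ℕ) : ℚ)⁻¹,
      (c' * a + d' * c) * ((2 * m + 1 : ℕ) : ℚ)⁻¹, (c' * b + d' * d) * ((2 * m + 1 : ℕ) : ℚ)⁻¹,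
      mul_mem (add_mem (mul_mem ha' ha) (mul_mem hb' hc)) hodd,
      mul_mem (add_mem (mul_mem ha' hb) (mul_mem hb' hd)) hodd,
      mul_mem (add_mem (mul_mem hc' ha) (mul_mem hd' hc)) hodd,
      mul_mem (add_mem (mul_mem hc' hb) (mul_mem hd' hd)) hodd, ?_, ?_⟩
    · push_cast at h1 h2 h1' h2' ⊢
      have key : 2 * (2 * (m : ℚ) + 1) * (((m : ℚ) + 1) * s (2 ^ (e + 1) * (m + 1))) =
          2 * (2 * (m : ℚ) + 1) * (2 * ((a' * a + b' * c) * (2 * (m : ℚ) + 1)⁻¹) *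
            s (2 ^ (e + 1) * m) + 4 * ((a' * b + b' * d) * (2 * (m : ℚ) + 1)⁻¹) *
            w s (2 ^ (e + 1) * m)) := by
        field_simp
        linear_combination ((2 * (m : ℚ) + 1) / 2) * h1' + a' * h1 + 2 * b' * h2
      exact mul_left_cancel₀ (by positivity) key
    · push_cast at h1 h2 h1' h2' ⊢
      have key : 2 * (2 * (m : ℚ) + 1) * (((m : ℚ) + 1) * w s (2 ^ (e + 1) * (m + 1))) =
          2 * (2 * (m : ℚ) + 1) * (((c' * a + d' * c) * (2 * (m : ℚ) + 1)⁻¹) *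
            s (2 ^ (e + 1) * m) + 2 * ((c' * b + d' * d) * (2 * (m : ℚ) + 1)⁻¹) *
            w s (2 ^ (e + 1) * m)) := by
        field_simp
        linear_combination ((2 * (m : ℚ) + 1) / 2) * h2' + (c' / 2) * h1 + d' * h2
      exact mul_left_cancel₀ (by positivity) key

lemma integral (hs : Rec s) (h0 : s 0 = 1) (h1 : s 1 = 1) (n : ℕ) (hn : 1 ≤ n) :
    s n ∈ R ∧ 2 * w s n ∈ R := by
  induction n using Nat.strong_induction_on with
  | _ n ih =>
    obtain ⟨e, m, hm, rfl⟩ : ∃ e m : ℕ, Odd m ∧ n = 2 ^ e * m := by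
      obtain ⟨e, m, hm, h⟩ := Nat.exists_eq_two_pow_mul_odd (n := n) (by omega)
      exact ⟨e, m, hm, h⟩
    rcases eq_or_ne m 1 with rfl | hm1
    · rcases Nat.eq_zero_or_pos e with rfl | he
      · simp only [pow_zero, one_mul, w, Nat.sub_self, h0, h1]
        refine ⟨one_mem _, ?_⟩
        have : (2 * (1 / ((1 : ℕ) : ℚ)) : ℚ) = ((2 : ℕ) : ℚ) := by norm_num
        rw [this]; exact nat_mem _
      · obtain ⟨k, rfl⟩ : ∃ k, e = k + 1 := ⟨e - 1, by omega⟩
        have hlt : 2 ^ k * 1 < 2 ^ (k + 1) * 1 := by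
          have : 0 < 2 ^ k := by positivity
          rw [pow_succ]; omega
        obtain ⟨i1, i2⟩ := ih (2 ^ k * 1) hlt (by have : 0 < 2 ^ k := by positivity
                                                  omega)
        obtain ⟨a, b, c, d, ha, hb, hc, hd, q1, q2⟩ := step hs k 1 le_rfl
        have e2 : 2 ^ k * (1 + 1) = 2 ^ (k + 1) * 1 := by ring
        rw [e2] at q1 q2
        push_cast at q1 q2
        constructor
        · have : s (2 ^ (k + 1) * 1) = a * s (2 ^ k * 1) + b * (2 * w s (2 ^ k * 1)) := by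
            linear_combination q1 / 2
          rw [this]
          exact add_mem (mul_mem ha i1) (mul_mem hb i2)
        · have : 2 * w s (2 ^ (k + 1) * 1) = c * s (2 ^ k * 1) + d * (2 * w s (2 ^ k * 1)) := by
            linear_combination q2
          rw [this]
          exact add_mem (mul_mem hc i1) (mul_mem hd i2)
    · obtain ⟨l, rfl⟩ : ∃ l, m = l + 1 := ⟨m - 1, by have := hm.pos; omega⟩
      have hl : 1 ≤ l := by omega
      have hpos : 0 < 2 ^ e := by positivity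
      have hlt : 2 ^ e * l < 2 ^ e * (l + 1) := by nlinarith
      obtain ⟨i1, i2⟩ := ih (2 ^ e * l) hlt (Nat.succ_le_of_lt (Nat.mul_pos hpos (by omega)))
      obtain ⟨a, b, c, d, ha, hb, hc, hd, q1, q2⟩ := step hs e l hl
      have hinv : (((l + 1 : ℕ) : ℚ))⁻¹ ∈ R := inv_mem hm
      have hne : ((l : ℚ) + 1) ≠ 0 := by positivity
      constructor
      · have : s (2 ^ e * (l + 1)) = ((2 : ℕ) * a * s (2 ^ e * l) + (2 : ℕ) * b *
            (2 * w s (2 ^ e * l))) * (((l + 1 : ℕ) : ℚ))⁻¹ := by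
          push_cast
          field_simp
          linear_combination q1
        rw [this]
        exact mul_mem (add_mem (mul_mem (mul_mem (nat_mem _) ha) i1)
          (mul_mem (mul_mem (nat_mem _) hb) i2)) hinv
      · have : 2 * w s (2 ^ e * (l + 1)) = ((2 : ℕ) * c * s (2 ^ e * l) + (2 : ℕ) * d *
            (2 * w s (2 ^ e * l))) * (((l + 1 : ℕ) : ℚ))⁻¹ := by
          push_cast
          field_simp
          linear_combination q2
        rw [this]
        exact mul_mem (add_mem (mul_mem (mul_mem (nat_mem _) hc) i1)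
          (mul_mem (mul_mem (nat_mem _) hd) i2)) hinv

lemma integral' (hs : Rec s) (h0 : s 0 = 1) (h1 : s 1 = 1) (n : ℕ) : s n ∈ R := by
  rcases Nat.eq_zero_or_pos n with rfl | hn
  · rw [h0]; exact one_mem _
  · exact (integral hs h0 h1 n hn).1

end integrality


/-! ### Power series -/

section series

/-- The formal derivative. -/
noncomputable abbrev D : Derivation ℚ ℚ⟦X⟧ ℚ⟦X⟧ := PowerSeries.derivative ℚ

lemma D_mul (f g : ℚ⟦X⟧) : D (f * g) = f * D g + g * D f := by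
  rw [Derivation.leibniz, smul_eq_mul, smul_eq_mul]

lemma D_X : D (X : ℚ⟦X⟧) = 1 := PowerSeries.derivative_X

lemma D_nat (k : ℕ) : D (k : ℚ⟦X⟧) = 0 := Derivation.map_natCast D k

lemma D_two : D (2 : ℚ⟦X⟧) = 0 := by
  have := D_nat 2
  push_cast at this; exact this

lemma D_four : D (4 : ℚ⟦X⟧) = 0 := by
  have := D_nat 4
  push_cast at this; exact this

lemma D_24 : D (24 : ℚ⟦X⟧) = 0 := by
  have := D_nat 24
  push_cast at this; exact this

lemma D_one : D (1 : ℚ⟦X⟧) = 0 := PowerSeries.derivative_one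

lemma coeff_D (f : ℚ⟦X⟧) (n : ℕ) : coeff n (D f) = coeff (n + 1) f * (n + 1) :=
  PowerSeries.coeff_derivative f n

lemma coeff_ofNat_mul (k : ℕ) (f : ℚ⟦X⟧) (n : ℕ) :
    coeff n ((k : ℚ⟦X⟧) * f) = k * coeff n f := by
  have : (k : ℚ⟦X⟧) = PowerSeries.C (k : ℚ) := by simp
  rw [this, PowerSeries.coeff_C_mul]

lemma cXD (f : ℚ⟦X⟧) (n : ℕ) : coeff n (X * D f) = n * coeff n f := by
  cases n with
  | zero => simp
  | succ n => rw [PowerSeries.coeff_succ_X_mul, coeff_D]; push_cast; ring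

lemma cDD (f : ℚ⟦X⟧) (n : ℕ) : coeff n (D (D f)) = (n + 2) * (n + 1) * coeff (n + 2) f := by
  rw [coeff_D, coeff_D]; push_cast; ring

lemma cXDD (f : ℚ⟦X⟧) (n : ℕ) : coeff n (X * D (D f)) = (n + 1) * n * coeff (n + 1) f := by
  rw [cXD, coeff_D]; ring

lemma cXXDD (f : ℚ⟦X⟧) (n : ℕ) : coeff n (X * (X * D (D f))) = n * (n - 1) * coeff n f := by
  cases n with
  | zero => simp
  | succ n => rw [PowerSeries.coeff_succ_X_mul, cXDD]; push_cast; ring

lemma cXDDD (f : ℚ⟦X⟧) (n : ℕ) :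
    coeff n (X * D (D (D f))) = (n + 2) * (n + 1) * n * coeff (n + 2) f := by
  rw [cXD, cDD]; ring

lemma cXXDDD (f : ℚ⟦X⟧) (n : ℕ) :
    coeff n (X * (X * D (D (D f)))) = (n + 1) * n * (n - 1) * coeff (n + 1) f := by
  rw [cXXDD, coeff_D]; ring

lemma cXXXDDD (f : ℚ⟦X⟧) (n : ℕ) :
    coeff n (X * (X * (X * D (D (D f))))) = n * (n - 1) * (n - 2) * coeff n f := by
  cases n with
  | zero => simp
  | succ n => rw [PowerSeries.coeff_succ_X_mul, cXXDDD]; push_cast; ring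

/-- `F = ∑ P3 n / (2n)! Xⁿ`. -/
noncomputable def F : ℚ⟦X⟧ := PowerSeries.mk fun n => (P3 n : ℚ) / ((2 * n)! : ℚ)

/-- `H = ∑ P1 n / (2n+1)! Xⁿ`. -/
noncomputable def H : ℚ⟦X⟧ := PowerSeries.mk fun n => (P1 n : ℚ) / ((2 * n + 1)! : ℚ)

lemma P1_succ (n : ℕ) : P1 (n + 1) = P1 n * (4 * n + 3) ^ 2 := by
  unfold P1
  rw [Finset.prod_Icc_succ_top (by omega)]
  push_cast; ring

lemma P3_succ (n : ℕ) : P3 (n + 1) = P3 n * (4 * n + 1) ^ 2 := by
  unfold P3
  rw [Finset.prod_Icc_succ_top (by omega)]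
  push_cast; ring

lemma coeff_F_succ (n : ℕ) : (2 * (n : ℚ) + 1) * (2 * n + 2) * coeff (n + 1) F =
    (4 * n + 1) ^ 2 * coeff n F := by
  unfold F
  rw [PowerSeries.coeff_mk, PowerSeries.coeff_mk, P3_succ]
  have : 2 * (n + 1) = 2 * n + 1 + 1 := by ring
  rw [this, Nat.factorial_succ, Nat.factorial_succ]
  have h : ((2 * n)! : ℚ) ≠ 0 := by positivity
  push_cast
  field_simp
  ring

lemma coeff_H_succ (n : ℕ) : (2 * (n : ℚ) + 2) * (2 * n + 3) * coeff (n + 1) H =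
    (4 * n + 3) ^ 2 * coeff n H := by
  unfold H
  rw [PowerSeries.coeff_mk, PowerSeries.coeff_mk, P1_succ]
  have : 2 * (n + 1) + 1 = (2 * n + 1) + 1 + 1 := by ring
  rw [this, Nat.factorial_succ, Nat.factorial_succ]
  have h : ((2 * n + 1)! : ℚ) ≠ 0 := by positivity
  push_cast
  field_simp
  ring

lemma ode_F : 4 * X * (1 - 4 * X) * D (D F) + (2 - 24 * X) * D F - F = 0 := by
  have e : 4 * X * (1 - 4 * X) * D (D F) + (2 - 24 * X) * D F - F =
      ((4 : ℕ) : ℚ⟦X⟧) * (X * D (D F)) - ((16 : ℕ) : ℚ⟦X⟧) * (X * (X * D (D F))) +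
      ((2 : ℕ) : ℚ⟦X⟧) * D F - ((24 : ℕ) : ℚ⟦X⟧) * (X * D F) - F := by push_cast; ring
  rw [e]
  ext n
  simp only [map_add, map_sub, coeff_ofNat_mul, cXXDD, coeff_D, cXD, map_zero]
  push_cast
  linear_combination coeff_F_succ n

lemma ode_H : (1 - 4 * X) * (6 * D H + 4 * X * D (D H)) - 9 * H - 16 * X * D H = 0 := by
  have e : (1 - 4 * X) * (6 * D H + 4 * X * D (D H)) - 9 * H - 16 * X * D H =
      ((4 : ℕ) : ℚ⟦X⟧) * (X * D (D H)) - ((16 : ℕ) : ℚ⟦X⟧) * (X * (X * D (D H))) +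
      ((6 : ℕ) : ℚ⟦X⟧) * D H - ((40 : ℕ) : ℚ⟦X⟧) * (X * D H) - ((9 : ℕ) : ℚ⟦X⟧) * H := by
    push_cast; ring
  rw [e]
  ext n
  simp only [map_add, map_sub, coeff_ofNat_mul, cXXDD, coeff_D, cXD, map_zero]
  push_cast
  linear_combination coeff_H_succ n

lemma wronskian : (1 - 4 * X) * (H * F + 2 * X * (D H * F - H * D F)) = 1 := by
  apply PowerSeries.derivative.ext
  · change D _ = D 1
    have key : 2 * D ((1 - 4 * X) * (H * F + 2 * X * (D H * F - H * D F))) = 0 := by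
      simp only [D_mul, map_add, map_sub, D_X, D_four, D_one, D_two]
      linear_combination F * ode_H - H * ode_F
    rw [D_one]
    have h20 : (2 : ℚ⟦X⟧) ≠ 0 := by
      intro h
      have e : (2 : ℚ⟦X⟧) = ((2 : ℕ) : ℚ⟦X⟧) * 1 := by push_cast; ring
      rw [e] at h
      have := congrArg (coeff 0) h
      rw [coeff_ofNat_mul] at this
      simp at this
    exact (mul_eq_zero.1 key).resolve_left h20
  · simp [H, F, P1, P3]


/-- The third order equation for `S = F²`. -/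
lemma ode_S : 2 * X * (1 - 4 * X) ^ 2 * D (D (D (F * F))) +
    3 * (1 - 12 * X) * (1 - 4 * X) * D (D (F * F)) - (18 - 104 * X) * D (F * F) +
    4 * (F * F) = 0 := by
  have E0 := ode_F
  have E1 : D (4 * X * (1 - 4 * X) * D (D F) + (2 - 24 * X) * D F - F) = 0 := by
    rw [E0, map_zero]
  simp only [D_mul, map_add, map_sub, D_X, D_four, D_one, D_two, D_24] at E1
  have h8 : (8 * X : ℚ⟦X⟧) ≠ 0 := by
    intro h
    have := congrArg (PowerSeries.coeff 1) h
    have e : (8 * X : ℚ⟦X⟧) = ((8 : ℕ) : ℚ⟦X⟧) * X := by push_cast; rfl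
    rw [e, coeff_ofNat_mul] at this
    simp at this
  apply mul_left_cancel₀ h8
  simp only [D_mul, map_add]
  linear_combination (6 * (4 * X * (1 - 4 * X)) * D F - 2 * F * ((4 - 32 * X) + (2 - 24 * X)) +
    6 * (2 - 24 * X) * F) * E0 + 2 * F * (4 * X * (1 - 4 * X)) * E1

/-- The coefficients of `S = F²`. -/
noncomputable def sc (n : ℕ) : ℚ := coeff n (F * F)

lemma rec_sc : Rec sc := by
  intro n
  have e : 2 * X * (1 - 4 * X) ^ 2 * D (D (D (F * F))) +
    3 * (1 - 12 * X) * (1 - 4 * X) * D (D (F * F)) - (18 - 104 * X) * D (F * F) +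
    4 * (F * F) = ((2 : ℕ) : ℚ⟦X⟧) * (X * D (D (D (F * F)))) -
      ((16 : ℕ) : ℚ⟦X⟧) * (X * (X * D (D (D (F * F))))) +
      ((32 : ℕ) : ℚ⟦X⟧) * (X * (X * (X * D (D (D (F * F)))))) +
      ((3 : ℕ) : ℚ⟦X⟧) * D (D (F * F)) - ((48 : ℕ) : ℚ⟦X⟧) * (X * D (D (F * F))) +
      ((144 : ℕ) : ℚ⟦X⟧) * (X * (X * D (D (F * F)))) - ((18 : ℕ) : ℚ⟦X⟧) * D (F * F) +
      ((104 : ℕ) : ℚ⟦X⟧) * (X * D (F * F)) + ((4 : ℕ) : ℚ⟦X⟧) * (F * F) := by
    push_cast; ring
  have h := congrArg (coeff n) (e.symm.trans ode_S)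
  simp only [map_add, map_sub, coeff_ofNat_mul, cXXXDDD, cXXDD, cXD,
    coeff_D, map_zero] at h
  push_cast at h
  unfold sc
  linear_combination h

lemma sc_zero : sc 0 = 1 := by
  simp [sc, F, P3]

lemma sc_one : sc 1 = 1 := by
  have h := coeff_F_succ 0
  have h0 : coeff 0 F = 1 := by simp [F, P3]
  rw [h0] at h
  unfold sc
  rw [PowerSeries.coeff_mul, Finset.Nat.sum_antidiagonal_succ]
  simp only [Finset.Nat.antidiagonal_zero, Finset.sum_singleton, h0, zero_add] at h ⊢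
  push_cast at h
  linarith

lemma sc_mem (n : ℕ) : coeff n (F * F) ∈ R := integral' rec_sc sc_zero sc_one n

/-- If `A V = 1` and the coefficients of `A` have odd denominators and the constant coefficient of
`A` is `1`, the same holds for `V`. -/
lemma inv_integral {A V : ℚ⟦X⟧} (hA : ∀ n, coeff n A ∈ R) (h0 : coeff 0 A = 1) (h : A * V = 1)
    (n : ℕ) : coeff n V ∈ R := by
  induction n using Nat.strong_induction_on with
  | _ n ih =>
    have h1 := congrArg (coeff n) h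
    rw [PowerSeries.coeff_mul, ← Finset.Nat.sum_antidiagonal_swap] at h1
    simp only [Prod.fst_swap, Prod.snd_swap] at h1
    rw [Finset.Nat.sum_antidiagonal_eq_sum_range_succ (fun i j => coeff j A * coeff i V) n,
      Finset.sum_range_succ, Nat.sub_self, h0, one_mul] at h1
    have h2 : coeff n V = coeff n (1 : ℚ⟦X⟧) - ∑ x ∈ Finset.range n, coeff (n - x) A * coeff x V := by
      linear_combination h1
    rw [h2]
    refine sub_mem ?_ (sum_mem fun x hx => mul_mem (hA _) (ih x (Finset.mem_range.1 hx)))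
    rw [PowerSeries.coeff_one]
    split_ifs
    · exact one_mem _
    · exact zero_mem _

section final

variable (u : ℕ → ℤ)

/-- `U = ∑ u n / (2n+1)! Xⁿ`. -/
noncomputable def U : ℚ⟦X⟧ := PowerSeries.mk fun n => (u n : ℚ) / ((2 * n + 1)! : ℚ)

variable {u}

lemma H_eq (h0 : u 0 = 1) (hu : ∀ n : ℕ, 1 ≤ n → u n = P1 n -
    ∑ m ∈ Finset.range n, ((2 * n + 1).choose (2 * m + 1) : ℤ) * P3 (n - m) * u m) :
    H = U u * F := by
  have hu' : ∀ n : ℕ, P1 n = ∑ m ∈ Finset.range (n + 1),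
      ((2 * n + 1).choose (2 * m + 1) : ℤ) * P3 (n - m) * u m := by
    intro n
    rcases Nat.eq_zero_or_pos n with rfl | hn
    · simp [P1, P3, h0]
    · rw [Finset.sum_range_succ, Nat.sub_self, Nat.choose_self]
      have := hu n hn
      have h3 : P3 0 = 1 := by simp [P3]
      rw [h3]
      push_cast
      linarith
  ext n
  rw [PowerSeries.coeff_mul]
  unfold H U F
  simp only [PowerSeries.coeff_mk]
  rw [Finset.Nat.sum_antidiagonal_eq_sum_range_succ
    (fun i j => (u i : ℚ) / ((2 * i + 1)! : ℚ) * ((P3 j : ℚ) / ((2 * j)! : ℚ))) n, hu' n]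
  push_cast
  rw [Finset.sum_div]
  refine Finset.sum_congr rfl fun m hm => ?_
  have hm' : m ≤ n := by
    have := Finset.mem_range.1 hm
    omega
  rw [Nat.cast_choose ℚ (show 2 * m + 1 ≤ 2 * n + 1 by omega),
    show 2 * n + 1 - (2 * m + 1) = 2 * (n - m) by omega]
  have a1 : ((2 * n + 1)! : ℚ) ≠ 0 := by positivity
  have a2 : ((2 * m + 1)! : ℚ) ≠ 0 := by positivity
  have a3 : ((2 * (n - m))! : ℚ) ≠ 0 := by positivity
  field_simp

theorem main (h0 : u 0 = 1) (hu : ∀ n : ℕ, 1 ≤ n → u n = P1 n -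
    ∑ m ∈ Finset.range n, ((2 * n + 1).choose (2 * m + 1) : ℤ) * P3 (n - m) * u m) (n : ℕ) :
    ((u n : ℚ) / ((2 * n + 1)! : ℚ)) ∈ R := by
  have hH := H_eq h0 hu
  have hW := wronskian
  have hDH : D H = U u * D F + F * D (U u) := by rw [hH, D_mul]
  have hV : ((1 - 4 * X) * (F * F)) * (U u + 2 * X * D (U u)) = 1 := by
    have : ((1 - 4 * X) * (F * F)) * (U u + 2 * X * D (U u)) =
        (1 - 4 * X) * (H * F + 2 * X * (D H * F - H * D F)) := by
      rw [hDH, hH]; ring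
    exact this.trans hW
  have hA : ∀ n, coeff n ((1 - 4 * X) * (F * F)) ∈ R := by
    intro n
    have e : (1 - 4 * X) * (F * F) = F * F - ((4 : ℕ) : ℚ⟦X⟧) * (X * (F * F)) := by push_cast; ring
    rw [e, map_sub, coeff_ofNat_mul]
    refine sub_mem (sc_mem n) (mul_mem (nat_mem 4) ?_)
    cases n with
    | zero => simp
    | succ n => rw [PowerSeries.coeff_succ_X_mul]; exact sc_mem n
  have hA0 : coeff 0 ((1 - 4 * X) * (F * F)) = 1 := by
    simp [F, P3]
  have hVn := inv_integral hA hA0 hV n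
  have e : U u + 2 * X * D (U u) = U u + ((2 : ℕ) : ℚ⟦X⟧) * (X * D (U u)) := by push_cast; ring
  rw [e, map_add, coeff_ofNat_mul, cXD] at hVn
  have hinv : ((2 * n + 1 : ℕ) : ℚ)⁻¹ ∈ R := inv_mem ⟨n, rfl⟩
  have h2 := mul_mem hVn hinv
  have e2 : (coeff n (U u) + ((2 : ℕ) : ℚ) * (n * coeff n (U u))) * ((2 * n + 1 : ℕ) : ℚ)⁻¹ =
      (u n : ℚ) / ((2 * n + 1)! : ℚ) := by
    unfold U
    rw [PowerSeries.coeff_mk]
    have a1 : ((2 * n + 1)! : ℚ) ≠ 0 := by positivity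
    have a2 : (2 * (n : ℚ) + 1) ≠ 0 := by positivity
    push_cast
    field_simp
    ring
  rw [e2] at h2
  exact h2

end final

end series

end Pool.Agent.MP_284f77_nt
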